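import Pool.Agent.Helper61.QT.GoalsG

/-!
# Project QT (MP_0ebdb3_gt), packet G-GBX: the base metric in polar coordinates
-/

set_option autoImplicit false

open Set Filter Topology

namespace Pool.Agent.Helper35.QT

open Pool.Agent.Helper61 Pool.Agent.Helper61.QG Pool.Agent.Helper61.QT
open Pool.Agent.Helper61.QS (V En rk R4 IsCurv SecNN Gam dd)
open Pool.Agent.Helper61.QM (Model W2 Mab pol2 act2 o1 o2 rot IsRe IsIm)

/-- Flipping is smooth. -/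
theorem contDiff_flip {F G : Type*}
    [NormedAddCommGroup F] [NormedSpace ℝ F] [NormedAddCommGroup G] [NormedSpace ℝ G]
    {n : WithTop ℕ∞} : ContDiff ℝ n fun B : G →L[ℝ] F →L[ℝ] ℝ => B.flip := by
  let L : (G →L[ℝ] F →L[ℝ] ℝ) →L[ℝ] (F →L[ℝ] G →L[ℝ] ℝ) :=
    (ContinuousLinearMap.flipₗᵢ ℝ G F ℝ).toContinuousLinearEquiv.toContinuousLinearMap
  exact ContinuousLinearMap.contDiff (𝕜 := ℝ) (E := G →L[ℝ] F →L[ℝ] ℝ)
    (F := F →L[ℝ] G →L[ℝ] ℝ) L

/-- `x ↦ A(x)(D₁(x) ·)(D₂(x) ·)` is as smooth as `A`, `D₁`, `D₂`. -/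
theorem contDiff_bilinearComp {E F G : Type*} [NormedAddCommGroup E] [NormedSpace ℝ E]
    [NormedAddCommGroup F] [NormedSpace ℝ F] [NormedAddCommGroup G] [NormedSpace ℝ G]
    {n : WithTop ℕ∞} {A : E → F →L[ℝ] F →L[ℝ] ℝ} {D₁ D₂ : E → G →L[ℝ] F}
    (hA : ContDiff ℝ n A) (h₁ : ContDiff ℝ n D₁) (h₂ : ContDiff ℝ n D₂) :
    ContDiff ℝ n fun x => (A x).bilinearComp (D₁ x) (D₂ x) := by
  have e1 : ContDiff ℝ n fun x => (A x).comp (D₁ x) := hA.clm_comp h₁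
  have e2 : ContDiff ℝ n fun x => ((A x).comp (D₁ x)).flip := contDiff_flip.comp e1
  have e3 : ContDiff ℝ n fun x => (((A x).comp (D₁ x)).flip).comp (D₂ x) := e2.clm_comp h₂
  have e4 : ContDiff ℝ n fun x => ((((A x).comp (D₁ x)).flip).comp (D₂ x)).flip :=
    contDiff_flip.comp e3
  exact e4

theorem gB_apply' {WW : Type} [NormedAddCommGroup WW] [NormedSpace ℝ WW]
    (gM : WW → WW →L[ℝ] WW →L[ℝ] ℝ) (p : R4 → WW) (x u v : R4) :
    gB gM p x u v = gM (p x) (fderiv ℝ p x u) (fderiv ℝ p x v) := rfl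

/-- **G-GBX** -/
theorem goalGBX (hG3 : QS.G_G3) : G_GBX := by
  intro WW _ _ M p Reg gM hp h
  have hD : ContDiff ℝ 2 (fderiv ℝ p) := hp.smooth.fderiv_right (by norm_num)
  have hC : ContDiff ℝ 2 (gB gM p) :=
    contDiff_bilinearComp ((h.smooth.comp hp.smooth).of_le (by norm_num)) hD hD
  have hpos : ∀ x ∈ Reg, ∀ u, u ≠ 0 → 0 < gB gM p x u u := by
    intro x hx u hu
    rw [gB_apply']
    exact h.pos _ (hp.mem x) _ (hp.tan x u) fun hτ => hu (hp.trans x hx u hτ)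
  refine ⟨hC, fun x u v => ?_, hpos, fun x hx => ?_⟩
  · rw [gB_apply', gB_apply']
    exact h.symm _ (hp.mem x) _ (hp.tan x u) _ (hp.tan x v)
  · exact hG3 _ x (hC.contDiffAt.differentiableAt (by norm_num)) (hpos x hx) _ _

end Pool.Agent.Helper35.QT
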