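import Pool.Agent.Helper61.QT.GoalsH

/-!
# Project QT, packet A-E1: every point of `X` is a rotated polar point
-/

set_option autoImplicit false

open Set

namespace Pool.Agent.Helper35.QT

open Pool.Agent.Helper61 Pool.Agent.Helper61.QG Pool.Agent.Helper61.QT
open Pool.Agent.Helper61.QS (V En tr rk R4)
open Pool.Agent.Helper61.QM (Model W2 Mab pol2 act2)

theorem e1_polar_form (w : ℂ) : ∃ α : ℝ, 0 ≤ α ∧ α ≤ 2 * Real.pi ∧
    w = Complex.exp (α * Complex.I) * (‖w‖ : ℂ) := by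
  have h := Complex.norm_mul_exp_arg_mul_I w
  have hpi := Real.pi_pos
  rcases le_or_gt 0 w.arg with h0 | h0
  · refine ⟨w.arg, h0, by linarith [Complex.arg_le_pi w], ?_⟩
    rw [mul_comm]
    exact h.symm
  · refine ⟨w.arg + 2 * Real.pi, by linarith [Complex.neg_pi_lt_arg w], by linarith, ?_⟩
    have h1 : Complex.exp (((w.arg + 2 * Real.pi : ℝ) : ℂ) * Complex.I) =
        Complex.exp (w.arg * Complex.I) := by
      push_cast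
      rw [add_mul, Complex.exp_add, Complex.exp_two_pi_mul_I, mul_one]
    rw [h1, mul_comm]
    exact h.symm

theorem e1_norm_expI (τ : ℝ) : ‖Complex.exp (τ * Complex.I)‖ = 1 :=
  Complex.norm_exp_ofReal_mul_I τ

theorem e1_unit (ζ : ℂ) (h : ‖ζ‖ = 1) : ∃ τ : ℝ, 0 ≤ τ ∧ τ ≤ 2 * Real.pi ∧
    ζ = Complex.exp (τ * Complex.I) := by
  obtain ⟨τ, h1, h2, h3⟩ := e1_polar_form ζ
  refine ⟨τ, h1, h2, ?_⟩
  rw [h] at h3
  simpa using h3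

theorem e1_solve (a b : ℤ) (hab : b = 0 ∨ (a = 1 ∧ b = 2)) (u u' : ℂ) (hu : ‖u‖ = 1)
    (hu' : ‖u'‖ = 1) : ∃ ζ ω : ℂ, ‖ζ‖ = 1 ∧ ‖ω‖ = 1 ∧ ζ * ω ^ b = u ∧ ζ ^ a * ω = u' := by
  have hu0 : u ≠ 0 := by
    intro h
    rw [h, norm_zero] at hu
    exact zero_ne_one hu
  have hu0' : u' ≠ 0 := by
    intro h
    rw [h, norm_zero] at hu'
    exact zero_ne_one hu'
  rcases hab with rfl | ⟨rfl, rfl⟩
  · refine ⟨u, u' * (u ^ a)⁻¹, hu, ?_, by simp, ?_⟩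
    · rw [norm_mul, norm_inv, norm_zpow, hu, hu', one_zpow, inv_one, one_mul]
    · have := zpow_ne_zero a hu0
      field_simp
  · refine ⟨u' ^ 2 / u, u / u', ?_, ?_, ?_, ?_⟩
    · rw [norm_div, norm_pow, hu, hu']
      norm_num
    · rw [norm_div, hu, hu']
      norm_num
    · have : (u / u') ^ (2 : ℤ) = (u / u') ^ 2 := by norm_cast
      rw [this]
      field_simp
    · rw [zpow_one]
      field_simp

theorem e1_arccos (t q : ℝ) (ht : 0 ≤ t) (hq : 0 ≤ q) (h : t ^ 2 + q ^ 2 = 1) :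
    0 ≤ Real.arccos t ∧ Real.arccos t ≤ Real.pi / 2 ∧ Real.cos (Real.arccos t) = t ∧
      Real.sin (Real.arccos t) = q := by
  have h1 : t ≤ 1 := by nlinarith [sq_nonneg q]
  refine ⟨Real.arccos_nonneg _, Real.arccos_le_pi_div_two.2 ht,
    Real.cos_arccos (by linarith) h1, ?_⟩
  rw [Real.sin_arccos]
  have : 1 - t ^ 2 = q ^ 2 := by linarith
  rw [this, Real.sqrt_sq hq]

theorem goalE1 : G_E1 := by
  rintro a b hab ⟨⟨x1, x2⟩, ⟨y1, y2⟩⟩ ⟨h1, h2⟩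
  simp only at h1 h2
  obtain ⟨t, -, -, ht⟩ := e1_polar_form x1
  obtain ⟨t', -, -, ht'⟩ := e1_polar_form y1
  obtain ⟨ζ, ω, hζ, hω, hz1, hz2⟩ := e1_solve a b hab (Complex.exp (t * Complex.I))
    (Complex.exp (t' * Complex.I)) (e1_norm_expI t) (e1_norm_expI t')
  have hζ0 : ζ ≠ 0 := by
    intro h
    rw [h, norm_zero] at hζ
    exact zero_ne_one hζ
  have hω0 : ω ≠ 0 := by
    intro h
    rw [h, norm_zero] at hω
    exact zero_ne_one hω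
  obtain ⟨σ, σ0, σ1, hσ⟩ := e1_unit ζ hζ
  obtain ⟨τ, τ0, τ1, hτ⟩ := e1_unit ω hω
  obtain ⟨α, α0, α1, hα⟩ := e1_polar_form (ζ⁻¹ * x2)
  obtain ⟨β, β0, β1, hβ⟩ := e1_polar_form (ω⁻¹ * y2)
  have hnb : ‖ζ⁻¹ * x2‖ = ‖x2‖ := by rw [norm_mul, norm_inv, hζ, inv_one, one_mul]
  have hnz : ‖ω⁻¹ * y2‖ = ‖y2‖ := by rw [norm_mul, norm_inv, hω, inv_one, one_mul]
  rw [hnb] at hα
  rw [hnz] at hβ
  obtain ⟨r1, r2, r3, r4⟩ := e1_arccos ‖x1‖ ‖x2‖ (norm_nonneg _) (norm_nonneg _) h1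
  obtain ⟨s1, s2, s3, s4⟩ := e1_arccos ‖y1‖ ‖y2‖ (norm_nonneg _) (norm_nonneg _) h2
  refine ⟨σ, τ, (Real.arccos ‖x1‖, Real.arccos ‖y1‖, α, β), ⟨r1, r2, s1, s2⟩, σ0, σ1, τ0, τ1,
    α0, α1, β0, β1, ?_⟩
  rw [← hσ, ← hτ]
  simp only [act2, pol2, r3, r4, s3, s4]
  rw [← hα, ← hβ, hz1, hz2, ← ht, ← ht', ← mul_assoc, ← mul_assoc, mul_inv_cancel₀ hζ0, one_mul,
    mul_inv_cancel₀ hω0, one_mul]

end Pool.Agent.Helper35.QT
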