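import Pool.Agent.Helper61.QT.GoalsG

/-!
# Project QT (MP_0ebdb3_gt), packet G-GKC

Consequences of nonnegative sectional curvature on the tube.
-/

set_option autoImplicit false

open Set

namespace Pool.Agent.Helper35.QT

open Pool.Agent.Helper61 Pool.Agent.Helper61.QG Pool.Agent.Helper61.QT
open Pool.Agent.Helper61.QS (V En rk R4 IsCurv SecNN Gam dd)
open Pool.Agent.Helper61.QM (Model W2 Mab pol2 act2 o1 o2 rot IsRe IsIm)

/-- **Packet G-GKC** -/
theorem goalGKC (h1 : G_GFR) (h2 : G_GKG) : G_GKC := by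
  intro WW _ _ M p Reg k n e B gM γ ρ hpol hb hM hF hρ hT x0 hx0 K hK
  obtain ⟨U, s, hch, hxU, hs⟩ := h1 WW M p Reg k n e B hpol hb x0 hx0
  have hX : p x0 ∈ M.X := hch.mem x0 hxU
  -- the inequality at every point of the fibre
  have key : ∀ w : V k, ‖s x0 w‖ < ρ →
      0 ≤ K - 3 / 4 * γ (p x0, s x0 w) (FG B p x0 (s x0 w)) (FG B p x0 (s x0 w)) := by
    intro w hw
    obtain ⟨-, hc⟩ := h2 WW M p Reg k n e B gM γ ρ hpol hb hM hF U s hch x0 hxU hs w hw
    exact hT U p s hch x0 hxU w hw _ _ _ (hc K hK)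
  refine ⟨?_, fun hK0 => ?_⟩
  · have h := key 0 (by rw [map_zero, norm_zero]; exact hρ)
    rw [map_zero, map_zero, map_zero, mul_zero, sub_zero] at h
    exact h
  · ext1 u
    show FG B p x0 (e (p x0) u) = 0
    have hv : e (p x0) (e (p x0) u) = e (p x0) u :=
      congrArg (fun T : En n => T u) (hb.idem _ hX)
    obtain ⟨w, hw⟩ := (hch.range x0 hxU _).1 hv
    by_contra hne
    obtain ⟨t, ht0, ht⟩ : ∃ t : ℝ, 0 < t ∧ ‖s x0 (t • w)‖ < ρ := by
      refine ⟨ρ / (‖s x0 w‖ + 1), by positivity, ?_⟩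
      rw [map_smul, norm_smul, Real.norm_of_nonneg (by positivity), div_mul_eq_mul_div,
        div_lt_iff₀ (by positivity)]
      nlinarith [norm_nonneg (s x0 w)]
    obtain ⟨he, -⟩ := h2 WW M p Reg k n e B gM γ ρ hpol hb hM hF U s hch x0 hxU hs (t • w) ht
    have hk := key (t • w) ht
    have hr : e (p x0) (s x0 (t • w)) = s x0 (t • w) := (hch.range x0 hxU _).2 ⟨_, rfl⟩
    have hn : FG B p x0 (s x0 (t • w)) ≠ 0 := by
      rw [map_smul, map_smul, hw]
      exact smul_ne_zero ht0.ne' hne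
    have hp := hF.pos _ hX _ hr ht _ he hn
    rw [hK0] at hk
    linarith

end Pool.Agent.Helper35.QT
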