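import Pool.Agent.Helper61.QT.GoalsH

/-!
# Project QT, packet C-K4: the core theorem for `(a,b) = (1,2)`
-/

set_option autoImplicit false

open Set NormedSpace

namespace Pool.Agent.Helper35.QT

open Pool.Agent.Helper61 Pool.Agent.Helper61.QG Pool.Agent.Helper61.QT
open Pool.Agent.Helper61.QS (V En tr rk R4 UC)

section basics

variable {k : ℕ}

theorem k4_exp_add {x y : En k} (h : Commute x y) : exp (x + y) = exp x * exp y := by
  have : NormedAlgebra ℚ (En k) := NormedAlgebra.restrictScalars ℚ ℝ (En k)
  exact NormedSpace.exp_add_of_commute h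

/-- the one-parameter group -/
noncomputable def E (X : En k) (t : ℝ) : En k := exp (t • X)

theorem E_zero (X : En k) : E X 0 = 1 := by
  unfold E
  rw [zero_smul, NormedSpace.exp_zero]

theorem E_add (X : En k) (s t : ℝ) : E X (s + t) = E X s * E X t := by
  unfold E
  rw [add_smul]
  exact k4_exp_add (((Commute.refl X).smul_left s).smul_right t)

theorem E_neg_mul (X : En k) (t : ℝ) : E X (-t) * E X t = 1 := by
  rw [← E_add, neg_add_cancel, E_zero]

theorem E_mul_neg (X : En k) (t : ℝ) : E X t * E X (-t) = 1 := by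
  rw [← E_add, add_neg_cancel, E_zero]

theorem E_star {X : En k} (hX : star X = -X) (t : ℝ) : star (E X t) = E X (-t) := by
  unfold E
  rw [NormedSpace.star_exp, star_smul, hX, smul_neg, neg_smul]
  rfl

theorem E_unit {X : En k} (hX : star X = -X) (t : ℝ) : E X t ∈ unitary (En k) := by
  rw [Unitary.mem_iff, E_star hX]
  exact ⟨E_neg_mul X t, E_mul_neg X t⟩

theorem E_comm {X Y : En k} (h : Commute X Y) (t : ℝ) : Commute (E X t) Y := by
  have : NormedAlgebra ℚ (En k) := NormedAlgebra.restrictScalars ℚ ℝ (En k)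
  unfold E
  exact (h.smul_left t).exp_left

theorem E_comm' {X Y : En k} (h : Commute X Y) (t : ℝ) : Commute X (E Y t) :=
  (E_comm h.symm t).symm

theorem E_sum {X Y : En k} (h : Commute X Y) (t : ℝ) : E (X + Y) t = E X t * E Y t := by
  unfold E
  rw [smul_add]
  exact k4_exp_add ((h.smul_left t).smul_right t)

theorem E_cont (X : En k) : Continuous (E X) := by
  have : NormedAlgebra ℚ (En k) := NormedAlgebra.restrictScalars ℚ ℝ (En k)
  exact NormedSpace.exp_continuous.comp (continuous_id.smul continuous_const)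

theorem E_conj {X u : En k} (hu : u ∈ unitary (En k)) (t : ℝ) :
    u * E X t * star u = E (u * X * star u) t := by
  have : NormedAlgebra ℚ (En k) := NormedAlgebra.restrictScalars ℚ ℝ (En k)
  have h := Unitary.mem_iff.1 hu
  have h1 := NormedSpace.exp_units_conj (⟨u, star u, h.2, h.1⟩ : (En k)ˣ) (t • X)
  unfold E
  rw [← smul_mul_assoc, ← mul_smul_comm]
  exact h1.symm

/-- conjugation -/
noncomputable def cj (u x : En k) : En k := u * x * star u

theorem cj_mul (u v x : En k) : cj (u * v) x = cj u (cj v x) := by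
  unfold cj
  rw [star_mul]
  simp only [mul_assoc]

theorem cj_fix {u x : En k} (hu : u ∈ unitary (En k)) (h : Commute u x) : cj u x = x := by
  unfold cj
  rw [h.eq, mul_assoc, (Unitary.mem_iff.1 hu).2, mul_one]

theorem cj_mul_mul {u : En k} (hu : u ∈ unitary (En k)) (x y : En k) :
    cj u x * cj u y = cj u (x * y) := by
  unfold cj
  have h := (Unitary.mem_iff.1 hu).1
  calc u * x * star u * (u * y * star u) = u * x * (star u * u) * y * star u := by noncomm_ring
    _ = _ := by rw [h, mul_one]; noncomm_ring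

theorem cj_star (u x : En k) : star (cj u x) = cj u (star x) := by
  unfold cj
  rw [star_mul, star_mul, star_star]
  simp only [mul_assoc]

theorem cj_one {u : En k} (hu : u ∈ unitary (En k)) : cj u 1 = 1 := by
  unfold cj
  rw [mul_one, (Unitary.mem_iff.1 hu).2]

theorem cj_zero (u : En k) : cj u 0 = 0 := by
  unfold cj
  rw [mul_zero, zero_mul]

theorem cj_sum {N : ℕ} (u : En k) (x : Fin N → En k) : ∑ j, cj u (x j) = cj u (∑ j, x j) := by
  unfold cj
  rw [Finset.mul_sum, Finset.sum_mul]

theorem cj_tr {u : En k} (hu : u ∈ unitary (En k)) (x : En k) : tr (cj u x) = tr x := by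
  unfold cj
  rw [QS.tr_mul_comm, ← mul_assoc, (Unitary.mem_iff.1 hu).1, one_mul]

theorem comm_star {u s : En k} (hu : u ∈ unitary (En k)) (h : Commute s u) :
    Commute s (star u) := QS.comm_star hu h

/-- a conjugate commutes with what everything commutes with -/
theorem comm_cj {s u x : En k} (hu : u ∈ unitary (En k)) (h : Commute s u) (h' : Commute s x) :
    Commute s (cj u x) := (h.mul_right h').mul_right (comm_star hu h)

end basics

theorem goalK4 (hK3 : G_K3) (hCW : QS.G_CW) (hCLB : QS.G_CLB) : G_K4 := by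
  intro k g f v l L
  obtain ⟨A, B, C, D, hA, hB, hC, hD, AB, AD, CB, CD, hg, -, hl, hf⟩ := hK3 k g f v l L
  have cAB : Commute A B := AB
  have cAD : Commute A D := AD
  have cCB : Commute C B := CB
  have cCD : Commute C D := CD
  have eg : ∀ x : ℝ, g x = E B (-x) * E C (-x) * E A x := by
    intro x
    rw [hg x]
    have := E_sum cCB.symm (-x)
    unfold E at this ⊢
    rw [this]
  have el : ∀ x : ℝ, l x = E C x * E D (-x) * E A x := hl
  have ef : ∀ x : ℝ, f x = E A (-(2 * x)) * E D x * E B x := hf
  set p : ℝ := 2 * Real.pi with hp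
  have g1 : g p = 1 := by
    have := (L.per 0).1
    rw [zero_add, L.one.1] at this
    exact this
  have l1 : l p = 1 := by
    have := (L.per 0).2.2.2
    rw [zero_add, L.one.2.2.2] at this
    exact this
  -- `eA = eB eC`
  have hEA : E A p = E C p * E B p := by
    rw [eg] at g1
    have h1 : E B (-p) * (E C (-p) * E A p) = 1 := by rw [← mul_assoc]; exact g1
    calc E A p = E C p * (E B p * E B (-p)) * (E C (-p) * E A p) := by
          rw [E_mul_neg, mul_one, ← mul_assoc, E_mul_neg, one_mul]
      _ = E C p * E B p * (E B (-p) * (E C (-p) * E A p)) := by noncomm_ring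
      _ = _ := by rw [h1, mul_one]
  have cECB : Commute (E C p) (E B p) := E_comm (E_comm' cCB p) p
  have hEC : E C p = E B (-p) * E A p := by
    rw [hEA, cECB.eq, ← mul_assoc, E_neg_mul, one_mul]
  have hED : E D p = E C p * E A p := by
    rw [el] at l1
    have c1 : Commute (E C p) (E D (-p)) := E_comm (E_comm' cCD (-p)) p
    rw [c1.eq] at l1
    calc E D p = E D p * (E D (-p) * E C p * E A p) := by rw [l1, mul_one]
      _ = (E D p * E D (-p)) * (E C p * E A p) := by noncomm_ring
      _ = _ := by rw [E_mul_neg, one_mul]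
  -- first path
  obtain ⟨w1, w1c, w10, w1u, w1k⟩ := hCW k {B, D, E C p} A C hA hC
    (by
      intro s hs
      rcases hs with rfl | rfl | rfl
      · exact cAB.symm
      · exact cAD.symm
      · rw [hEC]
        exact (Commute.mul_left (E_comm cAB.symm _) (E_comm (Commute.refl A) _)).eq)
    (by
      intro s hs
      rcases hs with rfl | rfl | rfl
      · exact cCB.symm
      · exact cCD.symm
      · exact (E_comm (Commute.refl C) _).eq)
  have w1B : ∀ t, Commute B (w1 t) := fun t => (w1u t).2 B (by simp)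
  have w1D : ∀ t, Commute D (w1 t) := fun t => (w1u t).2 D (by simp)
  have w1C : ∀ t, Commute (E C p) (w1 t) := fun t => (w1u t).2 (E C p) (by simp)
  set C' : En k := cj (w1 1) C with hC'
  have hC's : star C' = -C' := by
    rw [hC', cj_star, hC]
    unfold cj
    rw [mul_neg, neg_mul]
  have cC'A : Commute C' A := w1k
  have cBC' : Commute B C' := comm_cj (w1u 1).1 (w1B 1) cCB.symm
  have cDC' : Commute D C' := comm_cj (w1u 1).1 (w1D 1) cCD.symm
  have eC' : E C p = E C' p := by
    have h1 : cj (w1 1) (E C p) = E C' p := E_conj (w1u 1).1 p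
    rw [← h1, cj_fix (w1u 1).1 (w1C 1).symm]
  -- second path
  obtain ⟨w2, w2c, w20, w2u, w2k⟩ := hCW k {A, C', E D p} B D hB hD
    (by
      intro s hs
      rcases hs with rfl | rfl | rfl
      · exact cAB
      · exact cBC'.symm
      · rw [hED]
        exact (Commute.mul_left (E_comm cCB _) (E_comm cAB _)).eq)
    (by
      intro s hs
      rcases hs with rfl | rfl | rfl
      · exact cAD
      · exact cDC'.symm
      · exact (E_comm (Commute.refl D) _).eq)
  have w2A : ∀ t, Commute A (w2 t) := fun t => (w2u t).2 A (by simp)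
  have w2C' : ∀ t, Commute C' (w2 t) := fun t => (w2u t).2 C' (by simp)
  have w2D : ∀ t, Commute (E D p) (w2 t) := fun t => (w2u t).2 (E D p) (by simp)
  set D' : En k := cj (w2 1) D with hD'
  have hD's : star D' = -D' := by
    rw [hD', cj_star, hD]
    unfold cj
    rw [mul_neg, neg_mul]
  have cD'B : Commute D' B := w2k
  have cAD' : Commute A D' := comm_cj (w2u 1).1 (w2A 1) cAD
  have cC'D' : Commute C' D' := comm_cj (w2u 1).1 (w2C' 1) cDC'.symm
  obtain ⟨N, π, hπ, hπo, hπs, hπt⟩ := hCLB k {A, B, C', D'} (by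
    have key : ∀ x ∈ ({A, B, C', D'} : Set (En k)), ∀ y ∈ ({A, B, C', D'} : Set (En k)),
        Commute x y := by
      intro x hx y hy
      rcases hx with rfl | rfl | rfl | rfl <;> rcases hy with rfl | rfl | rfl | rfl
      · exact Commute.refl _
      · exact cAB
      · exact cC'A.symm
      · exact cAD'
      · exact cAB.symm
      · exact Commute.refl _
      · exact cBC'
      · exact cD'B.symm
      · exact cC'A
      · exact cBC'.symm
      · exact Commute.refl _
      · exact cC'D'
      · exact cAD'.symm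
      · exact cD'B
      · exact cC'D'.symm
      · exact Commute.refl _
    have sk : ∀ y ∈ ({A, B, C', D'} : Set (En k)), star y = -y := by
      intro y hy
      rcases hy with rfl | rfl | rfl | rfl
      · exact hA
      · exact hB
      · exact hC's
      · exact hD's
    intro x hx y hy
    refine ⟨key x hx y hy, ?_⟩
    rw [sk y hy]
    exact (key x hx y hy).neg_right)
  have πA : ∀ j, Commute A (π j) := fun j => (hπ j).2.2 A (by simp)
  have πB : ∀ j, Commute B (π j) := fun j => (hπ j).2.2 B (by simp)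
  have πC : ∀ j, Commute C' (π j) := fun j => (hπ j).2.2 C' (by simp)
  have πD : ∀ j, Commute D' (π j) := fun j => (hπ j).2.2 D' (by simp)
  -- the elements `eC, eD, eA, eB` commute with `w1, w2, π`
  have ecC : ∀ r s j, Commute (E C p) (w1 r) ∧ Commute (E C p) (w2 s) ∧ Commute (E C p) (π j) := by
    intro r s j
    refine ⟨w1C r, ?_, ?_⟩
    · rw [eC']
      exact E_comm (w2C' s) p
    · rw [eC']
      exact E_comm (πC j) p
  have ecD : ∀ r s j, Commute (E D p) (w1 r) ∧ Commute (E D p) (w2 s) ∧ Commute (E D p) (π j) := by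
    intro r s j
    refine ⟨E_comm (w1D r) p, w2D s, ?_⟩
    rw [hED]
    exact Commute.mul_left (ecC 0 0 j).2.2 (E_comm (πA j) p)
  have inv_comm : ∀ X Y : En k, Commute (E X p) Y → Commute (E X (-p)) Y := by
    intro X Y h
    have h1 : E X (-p) * Y = Y * E X (-p) := by
      calc E X (-p) * Y = E X (-p) * (Y * E X p) * E X (-p) := by
            rw [mul_assoc, mul_assoc, E_mul_neg, mul_one]
        _ = (E X (-p) * E X p) * Y * E X (-p) := by rw [← h.eq]; noncomm_ring
        _ = _ := by rw [E_neg_mul, one_mul]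
    exact h1
  have hEA2 : E A p = E C (-p) * E D p := by
    rw [hED, ← mul_assoc, E_neg_mul, one_mul]
  have hEB2 : E B p = E C (-p) * E A p := by
    rw [hEA, ← mul_assoc, E_neg_mul, one_mul]
  have ecA : ∀ r s j, Commute (E A p) (w1 r) ∧ Commute (E A p) (w2 s) ∧ Commute (E A p) (π j) := by
    intro r s j
    rw [hEA2]
    exact ⟨Commute.mul_left (inv_comm _ _ (ecC r s j).1) (ecD r s j).1,
      Commute.mul_left (inv_comm _ _ (ecC r s j).2.1) (ecD r s j).2.1,
      Commute.mul_left (inv_comm _ _ (ecC r s j).2.2) (ecD r s j).2.2⟩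
  have ecB : ∀ r s j, Commute (E B p) (w1 r) ∧ Commute (E B p) (w2 s) ∧ Commute (E B p) (π j) := by
    intro r s j
    rw [hEB2]
    exact ⟨Commute.mul_left (inv_comm _ _ (ecC r s j).1) (ecA r s j).1,
      Commute.mul_left (inv_comm _ _ (ecC r s j).2.1) (ecA r s j).2.1,
      Commute.mul_left (inv_comm _ _ (ecC r s j).2.2) (ecA r s j).2.2⟩
  -- the projections `P`
  have w1s : ∀ t, star (w1 t) ∈ unitary (En k) := fun t => Unitary.star_mem (w1u t).1
  have w2s : ∀ t, star (w2 t) ∈ unitary (En k) := fun t => Unitary.star_mem (w2u t).1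
  set P : Fin N → ℝ → ℝ → En k := fun j r s => cj (star (w1 r)) (cj (star (w2 s)) (π j)) with hP
  have commP : ∀ (X : En k) (r s : ℝ) (j : Fin N), Commute X (w1 r) → Commute X (w2 s) →
      Commute X (π j) → Commute X (P j r s) := fun X r s j h1 h2 h3 =>
    comm_cj (w1s r) (comm_star (w1u r).1 h1) (comm_cj (w2s s) (comm_star (w2u s).1 h2) h3)
  have PA : ∀ j r s, Commute (E A p) (P j r s) := fun j r s =>
    commP _ r s j (ecA r s j).1 (ecA r s j).2.1 (ecA r s j).2.2
  have PB : ∀ j r s, Commute (E B p) (P j r s) := fun j r s =>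
    commP _ r s j (ecB r s j).1 (ecB r s j).2.1 (ecB r s j).2.2
  have PA0 : ∀ j s, Commute A (P j 0 s) := fun j s =>
    commP _ 0 s j (by rw [w10]; exact Commute.one_right A) (w2A s) (πA j)
  have PB0 : ∀ j r, Commute B (P j r 0) := fun j r =>
    commP _ r 0 j (w1B r) (by rw [w20]; exact Commute.one_right B) (πB j)
  -- conjugating a commutation back
  have back : ∀ (u X Y : En k), u ∈ unitary (En k) → Commute (cj u X) Y →
      Commute X (cj (star u) Y) := by
    intro u X Y hu h
    have h1 : X = cj (star u) (cj u X) := by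
      rw [← cj_mul, (Unitary.mem_iff.1 hu).1]
      unfold cj
      rw [star_one, one_mul, mul_one]
    have hu' : star u ∈ unitary (En k) := Unitary.star_mem hu
    have h2 : X * cj (star u) Y = cj (star u) Y * X := by
      conv_lhs => rw [h1]
      conv_rhs => rw [h1]
      rw [cj_mul_mul hu', cj_mul_mul hu', h.eq]
    exact h2
  have PC1 : ∀ j s, Commute C (P j 1 s) := by
    intro j s
    refine back _ _ _ (w1u 1).1 ?_
    exact comm_cj (w2s s) (comm_star (w2u s).1 (w2C' s)) (πC j)
  have PD1 : ∀ j r, Commute D (P j r 1) := by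
    intro j r
    refine comm_cj (w1s r) (comm_star (w1u r).1 (w1D r)) ?_
    exact back _ _ _ (w2u 1).1 (πD j)
  -- the group elements
  have uAB : ∀ α β : ℝ, E B (-β) * E A (-α) ∈ unitary (En k) := fun α β =>
    mul_mem (E_unit hB _) (E_unit hA _)
  set Q : Fin N → R4 → En k := fun j x => cj (E B (-x.2.2.2) * E A (-x.2.2.1)) (P j x.1 x.2.1)
    with hQ
  have cEAB : ∀ s t : ℝ, Commute (E A s) (E B t) := fun s t => E_comm (E_comm' cAB t) s
  have cECB : ∀ s t : ℝ, Commute (E C s) (E B t) := fun s t => E_comm (E_comm' cCB t) s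
  have cEAD : ∀ s t : ℝ, Commute (E A s) (E D t) := fun s t => E_comm (E_comm' cAD t) s
  refine ⟨N, Q, ?_, ?_, ?_, ?_, ?_, ?_, ?_⟩
  · intro j
    apply Continuous.continuousOn
    have hEA := E_cont A
    have hEB := E_cont B
    simp only [hQ, hP, cj]
    fun_prop
  · intro j x _
    refine ⟨?_, ?_, ?_⟩
    · simp only [hQ, hP]
      rw [cj_mul_mul (uAB _ _), cj_mul_mul (w1s _), cj_mul_mul (w2s _), (hπ j).1]
    · simp only [hQ, hP]
      rw [cj_star, cj_star, cj_star, (hπ j).2.1]
    · simp only [hQ, hP]
      rw [cj_tr (uAB _ _), cj_tr (w1s _), cj_tr (w2s _)]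
      exact hπt j
  · intro i j hij x _
    simp only [hQ, hP]
    rw [cj_mul_mul (uAB _ _), cj_mul_mul (w1s _), cj_mul_mul (w2s _), hπo i j hij, cj_zero,
      cj_zero, cj_zero]
  · intro x _
    simp only [hQ, hP]
    rw [cj_sum, cj_sum, cj_sum, hπs, cj_one (w2s _), cj_one (w1s _), cj_one (uAB _ _)]
  · intro j r s α β _
    constructor
    · show cj (E B (-β) * E A (-(α + p))) (P j r s) = cj (E B (-β) * E A (-α)) (P j r s)
      have h1 : E B (-β) * E A (-(α + p)) = (E B (-β) * E A (-α)) * E A (-p) := by
        rw [neg_add, E_add, mul_assoc]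
      rw [h1, cj_mul, cj_fix (E_unit hA _) (inv_comm _ _ (PA j r s))]
    · show cj (E B (-(β + p)) * E A (-α)) (P j r s) = cj (E B (-β) * E A (-α)) (P j r s)
      have h1 : E B (-(β + p)) * E A (-α) = (E B (-β) * E A (-α)) * E B (-p) := by
        rw [neg_add, E_add, mul_assoc, mul_assoc, (cEAB (-α) (-p)).eq]
      rw [h1, cj_mul, cj_fix (E_unit hB _) (inv_comm _ _ (PB j r s))]
  · intro j s α β _ _
    constructor
    · show cj (E B (-β) * E A (-α)) (P j 0 s) = cj (E B (-β) * E A (-0)) (P j 0 s)
      rw [cj_mul, cj_mul, cj_fix (E_unit hA _) (E_comm (PA0 j s) _),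
        cj_fix (E_unit hA _) (E_comm (PA0 j s) _)]
    · show cj (E B (-(β + (1 : ℤ) * α)) * E A (-0)) (P j 1 s) =
        cj (g α) (cj (E B (-β) * E A (-α)) (P j 1 s))
      have h1 : g α * (E B (-β) * E A (-α)) = E B (-(β + (1 : ℤ) * α)) * E C (-α) := by
        rw [eg]
        calc E B (-α) * E C (-α) * E A α * (E B (-β) * E A (-α)) =
            E B (-α) * E C (-α) * (E A α * E B (-β)) * E A (-α) := by noncomm_ring
          _ = E B (-α) * (E C (-α) * E B (-β)) * (E A α * E A (-α)) := by
              rw [(cEAB α (-β)).eq]; noncomm_ring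
          _ = (E B (-α) * E B (-β)) * E C (-α) := by
              rw [(cECB (-α) (-β)).eq, E_mul_neg]; noncomm_ring
          _ = _ := by
              rw [← E_add]
              congr 2
              push_cast
              ring
      rw [← cj_mul (g α), h1, cj_mul _ (E C (-α)), cj_fix (E_unit hC _) (E_comm (PC1 j s) _)]
      rw [neg_zero, E_zero, mul_one]
  · intro j r α β _ _
    constructor
    · show cj (E B (-β) * E A (-α)) (P j r 0) = cj (E B (-0) * E A (-α)) (P j r 0)
      rw [← (cEAB (-α) (-β)).eq, ← (cEAB (-α) (-0)).eq, cj_mul, cj_mul,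
        cj_fix (E_unit hB _) (E_comm (PB0 j r) _), cj_fix (E_unit hB _) (E_comm (PB0 j r) _)]
    · show cj (E B (-0) * E A (-(α + (2 : ℤ) * β))) (P j r 1) =
        cj (f β) (cj (E B (-β) * E A (-α)) (P j r 1))
      have h1 : f β * (E B (-β) * E A (-α)) = E A (-(α + (2 : ℤ) * β)) * E D β := by
        rw [ef]
        calc E A (-(2 * β)) * E D β * E B β * (E B (-β) * E A (-α)) =
            E A (-(2 * β)) * E D β * (E B β * E B (-β)) * E A (-α) := by noncomm_ring
          _ = E A (-(2 * β)) * (E D β * E A (-α)) := by rw [E_mul_neg]; noncomm_ring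
          _ = (E A (-(2 * β)) * E A (-α)) * E D β := by
              rw [← (cEAD (-α) β).eq]; noncomm_ring
          _ = _ := by
              rw [← E_add]
              congr 2
              push_cast
              ring
      rw [← cj_mul (f β), h1, cj_mul _ (E D β), cj_fix (E_unit hD _) (E_comm (PD1 j r) _)]
      rw [neg_zero, E_zero, one_mul]

end Pool.Agent.Helper35.QT
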