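import Pool.Agent.Helper61.QT.GoalsG
import Pool.Agent.Helper8.QS.PL

/-!
# Project QT (MP_0ebdb3_gt), packet PL2: facts on the polar coordinates
-/

set_option autoImplicit false

open Set ComplexConjugate

namespace Pool.Agent.Helper35.QT

open Pool.Agent.Helper61 Pool.Agent.Helper61.QG Pool.Agent.Helper61.QT
open Pool.Agent.Helper61.QS (V En rk R4 IsCurv SecNN Gam dd)
open Pool.Agent.Helper61.QM (Model W2 Mab pol2 act2 o1 o2 rot IsRe IsIm)
open Pool.Agent.Helper8.QS (cos_deriv exp_sin_deriv exp_norm re_aux lin_zero)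

theorem pol2_contDiff : ContDiff ℝ 3 pol2 := by
  unfold Pool.Agent.Helper61.QM.pol2
  have c1 : ContDiff ℝ 3 (fun x : ℝ => (x : ℂ)) := Complex.ofRealCLM.contDiff
  have f1 : ContDiff ℝ 3 (fun x : R4 => x.1) := contDiff_fst
  have f2 : ContDiff ℝ 3 (fun x : R4 => x.2.1) := contDiff_fst.comp contDiff_snd
  have f3 : ContDiff ℝ 3 (fun x : R4 => x.2.2.1) :=
    contDiff_fst.comp (contDiff_snd.comp contDiff_snd)
  have f4 : ContDiff ℝ 3 (fun x : R4 => x.2.2.2) :=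
    contDiff_snd.comp (contDiff_snd.comp contDiff_snd)
  have g1 : ContDiff ℝ 3 (fun x : R4 => ((Real.cos x.1 : ℝ) : ℂ)) :=
    c1.comp (Real.contDiff_cos.comp f1)
  have g2 : ContDiff ℝ 3 (fun x : R4 => ((Real.sin x.1 : ℝ) : ℂ)) :=
    c1.comp (Real.contDiff_sin.comp f1)
  have g3 : ContDiff ℝ 3 (fun x : R4 => ((Real.sin x.2.1 : ℝ) : ℂ)) :=
    c1.comp (Real.contDiff_sin.comp f2)
  have g4 : ContDiff ℝ 3 (fun x : R4 => ((Real.cos x.2.1 : ℝ) : ℂ)) :=
    c1.comp (Real.contDiff_cos.comp f2)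
  have g5 : ContDiff ℝ 3 (fun x : R4 => Complex.exp (x.2.2.1 * Complex.I)) :=
    ((c1.comp f3).mul contDiff_const).cexp
  have g6 : ContDiff ℝ 3 (fun x : R4 => Complex.exp (x.2.2.2 * Complex.I)) :=
    ((c1.comp f4).mul contDiff_const).cexp
  exact (g1.prodMk (g5.mul g2)).prodMk (g4.prodMk (g6.mul g3))

theorem pol2_fderiv (x c : R4) : fderiv ℝ pol2 x c =
    ((-(Real.sin x.1 * c.1 : ℂ), Complex.exp (x.2.2.1 * Complex.I) *
        (Real.cos x.1 * c.1 + Complex.I * Real.sin x.1 * c.2.2.1)),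
      (-(Real.sin x.2.1 * c.2.1 : ℂ), Complex.exp (x.2.2.2 * Complex.I) *
        (Real.cos x.2.1 * c.2.1 + Complex.I * Real.sin x.2.1 * c.2.2.2))) := by
  have hd : Differentiable ℝ pol2 := pol2_contDiff.differentiable (by norm_num)
  have hl : HasDerivAt (fun t : ℝ => x + t • c) c 0 := by
    have h := ((hasDerivAt_id (0 : ℝ)).smul_const c).const_add x
    simpa using h
  have h1 : HasDerivAt (fun t : ℝ => pol2 (x + t • c)) (fderiv ℝ pol2 x c) 0 := by
    have h2 : HasFDerivAt pol2 (fderiv ℝ pol2 x) (x + (0 : ℝ) • c) := by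
      rw [zero_smul, add_zero]
      exact (hd x).hasFDerivAt
    exact h2.comp_hasDerivAt (0 : ℝ) hl
  have h3 : HasDerivAt (fun t : ℝ => pol2 (x + t • c))
      ((-(Real.sin x.1 * c.1 : ℂ), Complex.exp (x.2.2.1 * Complex.I) *
        (Real.cos x.1 * c.1 + Complex.I * Real.sin x.1 * c.2.2.1)),
      (-(Real.sin x.2.1 * c.2.1 : ℂ), Complex.exp (x.2.2.2 * Complex.I) *
        (Real.cos x.2.1 * c.2.1 + Complex.I * Real.sin x.2.1 * c.2.2.2))) 0 := by
    have k1 := (cos_deriv x.1 c.1).ofReal_comp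
    have k1' : ((-(Real.sin x.1 * c.1) : ℝ) : ℂ) = -(Real.sin x.1 * c.1 : ℂ) := by push_cast; ring
    rw [k1'] at k1
    have k2 := exp_sin_deriv x.2.2.1 c.2.2.1 x.1 c.1
    have k3 := exp_sin_deriv x.2.2.2 c.2.2.2 x.2.1 c.2.1
    have k4 := (cos_deriv x.2.1 c.2.1).ofReal_comp
    have k4' : ((-(Real.sin x.2.1 * c.2.1) : ℝ) : ℂ) = -(Real.sin x.2.1 * c.2.1 : ℂ) := by
      push_cast; ring
    rw [k4'] at k4
    exact (k1.prodMk k2).prodMk (k4.prodMk k3)
  exact h1.unique h3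

theorem mem_aux (r α : ℝ) : ‖((Real.cos r : ℝ) : ℂ)‖ ^ 2 +
    ‖Complex.exp (α * Complex.I) * ((Real.sin r : ℝ) : ℂ)‖ ^ 2 = 1 := by
  rw [norm_mul, exp_norm, one_mul, Complex.norm_real, Complex.norm_real, Real.norm_eq_abs,
    Real.norm_eq_abs, sq_abs, sq_abs]
  exact Real.cos_sq_add_sin_sq r

theorem tan_aux (r α c1 cα : ℝ) : (conj ((Real.cos r : ℝ) : ℂ) * (-(Real.sin r * c1 : ℂ)) +
      conj (Complex.exp (α * Complex.I) * ((Real.sin r : ℝ) : ℂ)) *
      (Complex.exp (α * Complex.I) *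
        (Real.cos r * c1 + Complex.I * Real.sin r * cα))).re = 0 := by
  rw [Complex.add_re, re_aux, Complex.conj_ofReal]
  have h : ((Real.cos r : ℝ) : ℂ) * (-(((Real.sin r : ℝ) : ℂ) * ((c1 : ℝ) : ℂ))) =
      ((-(Real.cos r * (Real.sin r * c1)) : ℝ) : ℂ) := by
    push_cast
    ring
  rw [h, Complex.ofReal_re]
  ring

theorem dense_aux : Dense {r : ℝ | Real.sin r ≠ 0 ∧ Real.cos r ≠ 0} := by
  have h1 : {r : ℝ | Real.sin r ≠ 0 ∧ Real.cos r ≠ 0}
      = (range fun n : ℤ => (n : ℝ) * Real.pi / 2)ᶜ := by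
    ext r
    rw [mem_ofPred_eq, mem_compl_iff, mem_range]
    constructor
    · rintro ⟨h2, h3⟩ ⟨n, hn⟩
      have h4 : Real.sin (2 * r) = 0 := by
        have h5 : 2 * r = n * Real.pi := by
          rw [← hn]
          ring
        rw [h5]
        exact Real.sin_int_mul_pi n
      rw [Real.sin_two_mul] at h4
      rcases mul_eq_zero.1 h4 with h5 | h5
      · rcases mul_eq_zero.1 h5 with h6 | h6
        · norm_num at h6
        · exact h2 h6
      · exact h3 h5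
    · intro h2
      have h3 : Real.sin (2 * r) ≠ 0 := by
        intro h4
        obtain ⟨n, hn⟩ := Real.sin_eq_zero_iff.1 h4
        exact h2 ⟨n, by rw [hn]; ring⟩
      rw [Real.sin_two_mul] at h3
      constructor
      · intro h4
        apply h3
        rw [h4]
        ring
      · intro h4
        apply h3
        rw [h4]
        ring
  rw [h1]
  exact (countable_range _).dense_compl ℝ

theorem open_aux : IsOpen {r : ℝ | Real.sin r ≠ 0 ∧ Real.cos r ≠ 0} :=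
  (isOpen_ne_fun Real.continuous_sin continuous_const).inter
    (isOpen_ne_fun Real.continuous_cos continuous_const)

theorem Reg2_eq : Reg2 = {r : ℝ | Real.sin r ≠ 0 ∧ Real.cos r ≠ 0} ×ˢ
    ({r : ℝ | Real.sin r ≠ 0 ∧ Real.cos r ≠ 0} ×ˢ (univ : Set (ℝ × ℝ))) := by
  ext x
  constructor
  · rintro ⟨h1, h2, h3, h4⟩
    exact ⟨⟨h1, h2⟩, ⟨h3, h4⟩, trivial⟩
  · rintro ⟨⟨h1, h2⟩, ⟨h3, h4⟩, -⟩
    exact ⟨h1, h2, h3, h4⟩

/-- first coordinate of the transversality equation -/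
theorem cos_eq {s c y σ : ℝ} (hs : s ≠ 0) (hc : c ≠ 0)
    (h : -((s : ℂ) * (y : ℂ)) = (σ : ℂ) * (Complex.I * (c : ℂ))) : y = 0 ∧ σ = 0 := by
  have h1 : ((-(s * y) : ℝ) : ℂ) = ((σ * c : ℝ) : ℂ) * Complex.I := by
    push_cast
    linear_combination h
  have h2 := congrArg Complex.im h1
  rw [Complex.ofReal_im, Complex.im_ofReal_mul, Complex.I_im, mul_one] at h2
  have h3 := congrArg Complex.re h1
  rw [Complex.ofReal_re, Complex.re_ofReal_mul, Complex.I_re, mul_zero] at h3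
  exact ⟨(mul_eq_zero.mp (neg_eq_zero.mp h3)).resolve_left hs,
    (mul_eq_zero.mp h2.symm).resolve_right hc⟩

/-- second coordinate of the transversality equation -/
theorem sin_eq {s σ w α : ℝ} (hs : s ≠ 0)
    (h : Complex.exp (α * Complex.I) * (Complex.I * (s : ℂ) * (w : ℂ))
      = (σ : ℂ) * (Complex.I * (Complex.exp (α * Complex.I) * (s : ℂ)))) : w = σ := by
  have h1 : (Complex.exp (α * Complex.I) * Complex.I * (s : ℂ)) * (w : ℂ)
      = (Complex.exp (α * Complex.I) * Complex.I * (s : ℂ)) * (σ : ℂ) := by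
    linear_combination h
  have h2 : Complex.exp (α * Complex.I) * Complex.I * (s : ℂ) ≠ 0 :=
    mul_ne_zero (mul_ne_zero (Complex.exp_ne_zero _) Complex.I_ne_zero)
      (by exact_mod_cast hs)
  exact_mod_cast mul_left_cancel₀ h2 h1

theorem pol2_trans (a b : ℤ) (hab : a * b ≠ 1) (x : R4) (hx : x ∈ Reg2) (c : R4)
    (h : fderiv ℝ pol2 x c ∈ (Mab a b).O (pol2 x)) : c = 0 := by
  obtain ⟨hs, hc, hs', hc'⟩ := hx
  obtain ⟨σ, τ, h⟩ := h
  rw [pol2_fderiv] at h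
  have h1 : -(((Real.sin x.1 : ℝ) : ℂ) * ((c.1 : ℝ) : ℂ)) =
      σ • (Complex.I * ((Real.cos x.1 : ℝ) : ℂ)) +
        τ • (Complex.I * b * ((Real.cos x.1 : ℝ) : ℂ)) := congrArg (fun P : W2 => P.1.1) h
  have h2 : Complex.exp (x.2.2.1 * Complex.I) *
        (Real.cos x.1 * c.1 + Complex.I * Real.sin x.1 * c.2.2.1) =
      σ • (Complex.I * (Complex.exp (x.2.2.1 * Complex.I) * ((Real.sin x.1 : ℝ) : ℂ))) +
        τ • (0 : ℂ) := congrArg (fun P : W2 => P.1.2) h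
  have h3 : -(((Real.sin x.2.1 : ℝ) : ℂ) * ((c.2.1 : ℝ) : ℂ)) =
      σ • (Complex.I * a * ((Real.cos x.2.1 : ℝ) : ℂ)) +
        τ • (Complex.I * ((Real.cos x.2.1 : ℝ) : ℂ)) := congrArg (fun P : W2 => P.2.1) h
  have h4 : Complex.exp (x.2.2.2 * Complex.I) *
        (Real.cos x.2.1 * c.2.1 + Complex.I * Real.sin x.2.1 * c.2.2.2) =
      σ • (0 : ℂ) +
        τ • (Complex.I * (Complex.exp (x.2.2.2 * Complex.I) * ((Real.sin x.2.1 : ℝ) : ℂ))) :=
    congrArg (fun P : W2 => P.2.2) h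
  simp only [Complex.real_smul, mul_zero, add_zero, zero_add] at h1 h2 h3 h4
  obtain ⟨e1, e2⟩ := cos_eq (σ := σ + b * τ) hs hc (by
    rw [h1]
    push_cast
    ring)
  obtain ⟨e3, e4⟩ := cos_eq (σ := a * σ + τ) hs' hc' (by
    rw [h3]
    push_cast
    ring)
  rw [e1, Complex.ofReal_zero, mul_zero, zero_add] at h2
  rw [e3, Complex.ofReal_zero, mul_zero, zero_add] at h4
  have e5 := sin_eq hs h2
  have e6 := sin_eq hs' h4
  have hab' : (1 : ℝ) - a * b ≠ 0 := by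
    intro h5
    apply hab
    have h6 : ((a * b : ℤ) : ℝ) = ((1 : ℤ) : ℝ) := by
      push_cast
      linarith
    exact_mod_cast h6
  have hτ : τ = 0 := by
    have h5 : (1 - a * b : ℝ) * τ = 0 := by
      linear_combination e4 - a * e2
    exact (mul_eq_zero.1 h5).resolve_left hab'
  have hσ : σ = 0 := by
    rw [hτ] at e2
    linarith
  rw [hσ] at e5
  rw [hτ] at e6
  exact Prod.ext e1 (Prod.ext e3 (Prod.ext e5 e6))

/-- **G-PL2** -/
theorem goalPL2 : G_PL2 := by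
  intro a b hab
  refine ⟨⟨pol2_contDiff, ?_, ?_, ?_, ?_, ?_⟩, pol2_fderiv⟩
  · intro x
    exact ⟨mem_aux x.1 x.2.2.1, mem_aux x.2.1 x.2.2.2⟩
  · intro x c
    rw [pol2_fderiv]
    exact ⟨tan_aux x.1 x.2.2.1 c.1 c.2.2.1, tan_aux x.2.1 x.2.2.2 c.2.1 c.2.2.2⟩
  · rw [Reg2_eq]
    exact open_aux.prod (open_aux.prod isOpen_univ)
  · rw [Reg2_eq]
    exact dense_aux.prod (dense_aux.prod dense_univ)
  · intro x hx c hc
    exact pol2_trans a b hab x hx c hc

end Pool.Agent.Helper35.QT
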