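import Pool.Agent.Helper61.QT.GoalsG

/-!
# Project QT (MP_0ebdb3_gt), packet T3: Gauss-Bonnet on the torus
-/

set_option autoImplicit false

open Set MeasureTheory

namespace Pool.Agent.Helper35.QT

open Pool.Agent.Helper61 Pool.Agent.Helper61.QG Pool.Agent.Helper61.QT

/-- `c` is a period -/
def Per (c : ℝ × ℝ) (f : ℝ × ℝ → ℝ) : Prop := ∀ z, f (z + c) = f z

theorem Per.fd {c : ℝ × ℝ} {f : ℝ × ℝ → ℝ} (h : Per c f) (z v : ℝ × ℝ) :
    fderiv ℝ f (z + c) v = fderiv ℝ f z v := by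
  have h1 : (fun y => f (y + c)) = f := funext h
  have h2 := fderiv_comp_add_right (𝕜 := ℝ) (f := f) (x := z) c
  rw [h1] at h2
  rw [h2]

theorem per_PP {c : ℝ × ℝ} {E F G : ℝ × ℝ → ℝ} (hE : Per c E) (hF : Per c F) (hG : Per c G) :
    Per c (PP E F G) := by
  intro z
  have e1 : d1 F (z + c) = d1 F z := hF.fd z (1, 0)
  have e2 : d2 E (z + c) = d2 E z := hE.fd z (0, 1)
  have e3 : d1 E (z + c) = d1 E z := hE.fd z (1, 0)
  unfold PP vol
  rw [e1, e2, e3, hE z, hF z, hG z]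

theorem per_QQ {c : ℝ × ℝ} {E F G : ℝ × ℝ → ℝ} (hE : Per c E) (hF : Per c F) (hG : Per c G) :
    Per c (QQ E F G) := by
  intro z
  have e1 : d1 G (z + c) = d1 G z := hG.fd z (1, 0)
  have e2 : d2 E (z + c) = d2 E z := hE.fd z (0, 1)
  unfold QQ vol
  rw [e1, e2, hE z, hF z, hG z]

theorem cont_d {f : ℝ × ℝ → ℝ} (h : ContDiff ℝ 1 f) (v : ℝ × ℝ) :
    Continuous fun z => fderiv ℝ f z v :=
  (h.continuous_fderiv one_ne_zero).clm_apply continuous_const

/-- a nonnegative function of divergence form, periodic, vanishes -/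
theorem div_zero {P Q : ℝ × ℝ → ℝ} (hP : ContDiff ℝ 1 P) (hQ : ContDiff ℝ 1 Q)
    (p1 : ∀ r s, P (r, s + Real.pi) = P (r, s)) (q1 : ∀ r s, Q (r + Real.pi, s) = Q (r, s))
    (h0 : ∀ z, 0 ≤ d2 P z - d1 Q z) (z : ℝ × ℝ) : d2 P z - d1 Q z = 0 := by
  by_contra hne
  have hpos : 0 < d2 P z - d1 Q z := lt_of_le_of_ne (h0 z) (Ne.symm hne)
  obtain ⟨r0, s0⟩ := z
  have hpi := Real.pi_pos
  set f : ℝ × ℝ → ℝ := fun z => fderiv ℝ (fun y => -Q y) z (1, 0) + fderiv ℝ P z (0, 1) with hf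
  have hfe : ∀ z, f z = d2 P z - d1 Q z := by
    intro z
    rw [hf]
    beta_reduce
    rw [fderiv_fun_neg]
    have : (-fderiv ℝ Q z) (1, 0) = -(fderiv ℝ Q z (1, 0)) := rfl
    rw [this]
    unfold d1 d2
    ring
  have hQn : ContDiff ℝ 1 (fun y => -Q y) := hQ.neg
  have hfc : Continuous f := (cont_d hQn (1, 0)).add (cont_d hP (0, 1))
  have hdiv := integral2_divergence_prod_of_hasFDerivAt (fun y => -Q y) P
    (fun z => fderiv ℝ (fun y => -Q y) z) (fun z => fderiv ℝ P z) r0 s0 (r0 + Real.pi)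
    (s0 + Real.pi) hQn.continuous.continuousOn hP.continuous.continuousOn
    (fun x _ => (hQn.differentiable one_ne_zero x).hasFDerivAt)
    (fun x _ => (hP.differentiable one_ne_zero x).hasFDerivAt)
    (hfc.continuousOn.integrableOn_compact (isCompact_uIcc.prod isCompact_uIcc))
  simp only [p1, q1] at hdiv
  have hz : ∫ x in r0..(r0 + Real.pi), ∫ y in s0..(s0 + Real.pi), f (x, y) = 0 := by
    refine hdiv.trans ?_
    ring
  have hcont : Continuous fun x => ∫ y in s0..(s0 + Real.pi), f (x, y) :=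
    intervalIntegral.continuous_parametric_intervalIntegral_of_continuous'
      (f := fun x y => f (x, y)) hfc s0 (s0 + Real.pi)
  have hin0 : ∀ x, 0 ≤ ∫ y in s0..(s0 + Real.pi), f (x, y) := by
    intro x
    apply intervalIntegral.integral_nonneg (by linarith)
    intro y _
    rw [hfe]
    exact h0 _
  have hin1 : 0 < ∫ y in s0..(s0 + Real.pi), f (r0, y) := by
    apply intervalIntegral.integral_pos (by linarith)
    · exact (hfc.comp (by fun_prop : Continuous fun y : ℝ => ((r0, y) : ℝ × ℝ))).continuousOn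
    · intro y _
      rw [hfe]
      exact h0 _
    · refine ⟨s0, ⟨le_rfl, by linarith⟩, ?_⟩
      rw [hfe]
      exact hpos
  have hout : 0 < ∫ x in r0..(r0 + Real.pi), ∫ y in s0..(s0 + Real.pi), f (x, y) := by
    apply intervalIntegral.integral_pos (by linarith)
    · exact hcont.continuousOn
    · intro x _
      exact hin0 x
    · exact ⟨r0, ⟨le_rfl, by linarith⟩, hin1⟩
  rw [hz] at hout
  exact lt_irrefl _ hout

/-- **G-T3** -/
theorem goalT3 (h : G_T2) : G_T3 := by
  intro E F G hE hF hG hpos hr hs hk z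
  obtain ⟨hP, hQ, hdiv⟩ := h E F G hE hF hG hpos
  have hv : ∀ z, 0 < vol E F G z := fun z => Real.sqrt_pos.2 (hpos z).2
  have cs : ∀ f : ℝ × ℝ → ℝ, (∀ r s, f (r, s + Real.pi) = f (r, s)) → Per (0, Real.pi) f := by
    intro f hf y
    have e : y + (0, Real.pi) = (y.1, y.2 + Real.pi) := by
      ext <;> simp
    rw [e, hf]
  have cr : ∀ f : ℝ × ℝ → ℝ, (∀ r s, f (r + Real.pi, s) = f (r, s)) → Per (Real.pi, 0) f := by
    intro f hf y
    have e : y + (Real.pi, 0) = (y.1 + Real.pi, y.2) := by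
      ext <;> simp
    rw [e, hf]
  have p1 : ∀ r s, PP E F G (r, s + Real.pi) = PP E F G (r, s) := by
    intro r s
    have h1 := per_PP (cs E fun r s => (hs r s).1) (cs F fun r s => (hs r s).2.1)
      (cs G fun r s => (hs r s).2.2) (r, s)
    have e : ((r, s) : ℝ × ℝ) + (0, Real.pi) = (r, s + Real.pi) := by
      ext <;> simp
    rwa [e] at h1
  have q1 : ∀ r s, QQ E F G (r + Real.pi, s) = QQ E F G (r, s) := by
    intro r s
    have h1 := per_QQ (cr E fun r s => (hr r s).1) (cr F fun r s => (hr r s).2.1)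
      (cr G fun r s => (hr r s).2.2) (r, s)
    have e : ((r, s) : ℝ × ℝ) + (Real.pi, 0) = (r + Real.pi, s) := by
      ext <;> simp
    rwa [e] at h1
  have h2 := div_zero hP hQ p1 q1 (by
    intro y
    rw [← hdiv y]
    exact div_nonneg (hk y) (hv y).le) z
  rw [← hdiv z] at h2
  rcases div_eq_zero_iff.1 h2 with h3 | h3
  · exact h3
  · exact absurd h3 (hv z).ne'

end Pool.Agent.Helper35.QT
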